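import Mathlib

/-!
Elementary sums needed for the critical mass.
-/

open Filter Topology Set

namespace Pool.Agent.helper95.GMC

lemma summable_three_half : Summable (fun j : ℕ => 1 / (((j : ℝ) + 1) * √((j : ℝ) + 1))) := by
  have h1 : Summable (fun n : ℕ => 1 / (n : ℝ) ^ ((3 : ℝ) / 2)) :=
    Real.summable_one_div_nat_rpow.2 (by norm_num)
  have h2 := (summable_nat_add_iff 1).2 h1
  refine h2.congr fun j => ?_
  have h3 : (0 : ℝ) < (j : ℝ) + 1 := by positivity
  push_cast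
  congr 1
  rw [Real.sqrt_eq_rpow, show ((3 : ℝ) / 2) = 1 + 1 / 2 by norm_num, Real.rpow_add h3, Real.rpow_one]

/-- tails of `∑ s^(-3/2)` -/
noncomputable def tailS (k : ℕ) : ℝ := ∑' j : ℕ, 1 / ((((j + k : ℕ) : ℝ) + 1) * √(((j + k : ℕ) : ℝ) + 1))

lemma tailS_tendsto : Tendsto tailS atTop (𝓝 0) := by
  have := tendsto_sum_nat_add (fun j : ℕ => 1 / (((j : ℝ) + 1) * √((j : ℝ) + 1)))
  exact this

lemma tailS_nonneg (k : ℕ) : 0 ≤ tailS k := tsum_nonneg fun j => by positivity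

/-- the second error term -/
noncomputable def errE (l : ℕ) : ℝ := ∑ s ∈ Finset.Ioc 0 l, 1 / (√s * ((l : ℝ) - s + 1))

lemma errE_nonneg (l : ℕ) : 0 ≤ errE l := by
  refine Finset.sum_nonneg fun s hs => ?_
  rw [Finset.mem_Ioc] at hs
  have : (s : ℝ) ≤ l := by exact_mod_cast hs.2
  have h2 : (0 : ℝ) ≤ (l : ℝ) - s + 1 := by linarith
  positivity

lemma sum_inv_sqrt_le' (l : ℕ) : ∑ s ∈ Finset.Ioc 0 l, 1 / √(s : ℝ) ≤ 2 * √l := by
  induction l with
  | zero => simp
  | succ l ih =>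
    rw [Finset.sum_Ioc_succ_top (by omega)]
    have h1 : 1 / √((l + 1 : ℕ) : ℝ) ≤ 2 * √((l + 1 : ℕ) : ℝ) - 2 * √l := by
      push_cast
      set a := √((l : ℝ) + 1) with ha
      set b := √(l : ℝ) with hb
      have ha2 : a ^ 2 = l + 1 := Real.sq_sqrt (by positivity)
      have hb2 : b ^ 2 = l := Real.sq_sqrt (by positivity)
      have ha0 : 0 < a := Real.sqrt_pos.2 (by positivity)
      have hb0 : 0 ≤ b := Real.sqrt_nonneg _
      rw [div_le_iff₀ ha0]
      nlinarith [sq_nonneg (a - b)]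
    linarith

lemma sum_reflect (l : ℕ) : ∑ s ∈ Finset.Ioc 0 l, 1 / ((l : ℝ) - s + 1) =
    ∑ i ∈ Finset.range l, 1 / ((i : ℝ) + 1) := by
  rw [← Finset.sum_range_reflect]
  refine Finset.sum_nbij' (fun s => s - 1) (fun i => i + 1) ?_ ?_ ?_ ?_ ?_
  · intro s hs
    rw [Finset.mem_Ioc] at hs
    rw [Finset.mem_range]
    omega
  · intro i hi
    rw [Finset.mem_range] at hi
    rw [Finset.mem_Ioc]
    omega
  · intro s hs
    rw [Finset.mem_Ioc] at hs
    omega
  · intro i hi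
    omega
  · intro s hs
    rw [Finset.mem_Ioc] at hs
    have h1 : l - 1 - (s - 1) = l - s := by omega
    rw [h1, Nat.cast_sub hs.2]

lemma harm_le (l : ℕ) : ∑ i ∈ Finset.range l, 1 / ((i : ℝ) + 1) ≤ 1 + Real.log l := by
  have h := harmonic_le_one_add_log l
  unfold harmonic at h
  push_cast at h
  simpa [one_div] using h

lemma errE_le {l : ℕ} (hl : 1 ≤ l) : errE l ≤ (3 + Real.log l) / √l := by
  have hl' : (1 : ℝ) ≤ l := by exact_mod_cast hl
  have hsl : 0 < √(l : ℝ) := Real.sqrt_pos.2 (by linarith)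
  have hss : √(l : ℝ) * √l = l := Real.mul_self_sqrt (by linarith)
  have hterm : ∀ s ∈ Finset.Ioc 0 l, 1 / (√(s : ℝ) * ((l : ℝ) - s + 1)) ≤
      (1 / (l + 1)) * (1 / √(s : ℝ) + √l * (1 / ((l : ℝ) - s + 1))) := by
    intro s hs
    rw [Finset.mem_Ioc] at hs
    have h1 : (1 : ℝ) ≤ s := by exact_mod_cast hs.1
    have h2 : (s : ℝ) ≤ l := by exact_mod_cast hs.2
    have h3 : (0 : ℝ) < (l : ℝ) - s + 1 := by linarith
    have h4 : 0 < √(s : ℝ) := Real.sqrt_pos.2 (by linarith)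
    have h5 : √(s : ℝ) * √s = s := Real.mul_self_sqrt (by linarith)
    have h6 : √(s : ℝ) ≤ √l := Real.sqrt_le_sqrt h2
    have e : 1 / (√(s : ℝ) * ((l : ℝ) - s + 1)) =
        (1 / (l + 1)) * (1 / √(s : ℝ) + √s * (1 / ((l : ℝ) - s + 1))) := by
      have h7 : 1 / √(s : ℝ) + √s * (1 / ((l : ℝ) - s + 1)) =
          ((l : ℝ) - s + 1 + √s * √s) / (√(s : ℝ) * ((l : ℝ) - s + 1)) := by
        field_simp
      rw [h7, h5]
      have h8 : (l : ℝ) - s + 1 + s = l + 1 := by ring
      rw [h8]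
      field_simp
    rw [e]
    gcongr
  calc errE l ≤ ∑ s ∈ Finset.Ioc 0 l, (1 / ((l : ℝ) + 1)) *
        (1 / √(s : ℝ) + √l * (1 / ((l : ℝ) - s + 1))) := Finset.sum_le_sum hterm
    _ = (1 / ((l : ℝ) + 1)) * ((∑ s ∈ Finset.Ioc 0 l, 1 / √(s : ℝ)) +
        √l * ∑ s ∈ Finset.Ioc 0 l, 1 / ((l : ℝ) - s + 1)) := by
        rw [← Finset.mul_sum, Finset.sum_add_distrib, ← Finset.mul_sum]
    _ ≤ (1 / ((l : ℝ) + 1)) * (2 * √l + √l * (1 + Real.log l)) := by
        gcongr
        · exact sum_inv_sqrt_le' l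
        · rw [sum_reflect]; exact harm_le l
    _ ≤ (1 / (l : ℝ)) * (2 * √l + √l * (1 + Real.log l)) := by
        have : 0 ≤ Real.log l := Real.log_nonneg hl'
        gcongr
        linarith
    _ = (3 + Real.log l) / √l := by
        rw [eq_div_iff hsl.ne']
        have hl0 : (l : ℝ) ≠ 0 := by linarith
        calc (1 / (l : ℝ)) * (2 * √l + √l * (1 + Real.log l)) * √l
            = (1 / (l : ℝ)) * (√(l : ℝ) * √l) * (3 + Real.log l) := by ring
          _ = (1 / (l : ℝ)) * l * (3 + Real.log l) := by rw [hss]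
          _ = 3 + Real.log l := by field_simp

lemma errE_tendsto : Tendsto errE atTop (𝓝 0) := by
  have h1 : Tendsto (fun l : ℕ => (3 + Real.log l) / √(l : ℝ)) atTop (𝓝 0) := by
    have h2 : Tendsto (fun x : ℝ => (3 + Real.log x) / √x) atTop (𝓝 0) := by
      have h3 : Tendsto (fun x : ℝ => Real.log x / √x) atTop (𝓝 0) := by
        have := (isLittleO_log_rpow_atTop (show (0 : ℝ) < 1 / 2 by norm_num)).tendsto_div_nhds_zero
        refine this.congr fun x => ?_
        rw [Real.sqrt_eq_rpow]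
      have h4 : Tendsto (fun x : ℝ => 3 / √x) atTop (𝓝 0) :=
        tendsto_const_nhds.div_atTop Real.tendsto_sqrt_atTop
      have h5 := h4.add h3
      rw [add_zero] at h5
      refine h5.congr fun x => ?_
      rw [add_div]
    exact h2.comp tendsto_natCast_atTop_atTop
  refine squeeze_zero' (Eventually.of_forall errE_nonneg) ?_ h1
  filter_upwards [eventually_ge_atTop 1] with l hl
  exact errE_le hl

/-- the main sum -/
lemma main_sum_le {k l : ℕ} (_hkl : k ≤ l) :
    (l : ℝ) * ∑ s ∈ Finset.Ioc k l, 1 / ((s : ℝ) * √s * ((l : ℝ) - s + 1)) ≤ tailS k + errE l := by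
  have hterm : ∀ s ∈ Finset.Ioc k l, (l : ℝ) * (1 / ((s : ℝ) * √s * ((l : ℝ) - s + 1))) ≤
      1 / ((s : ℝ) * √s) + 1 / (√(s : ℝ) * ((l : ℝ) - s + 1)) := by
    intro s hs
    rw [Finset.mem_Ioc] at hs
    have h1 : (1 : ℝ) ≤ s := by exact_mod_cast (by omega : 1 ≤ s)
    have h2 : (s : ℝ) ≤ l := by exact_mod_cast hs.2
    have h3 : (0 : ℝ) < (l : ℝ) - s + 1 := by linarith
    have h4 : 0 < √(s : ℝ) := Real.sqrt_pos.2 (by linarith)
    have e : 1 / ((s : ℝ) * √s) + 1 / (√(s : ℝ) * ((l : ℝ) - s + 1)) =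
        ((l : ℝ) + 1) * (1 / ((s : ℝ) * √s * ((l : ℝ) - s + 1))) := by
      field_simp
      ring
    rw [e]
    gcongr
    linarith
  calc (l : ℝ) * ∑ s ∈ Finset.Ioc k l, 1 / ((s : ℝ) * √s * ((l : ℝ) - s + 1))
      = ∑ s ∈ Finset.Ioc k l, (l : ℝ) * (1 / ((s : ℝ) * √s * ((l : ℝ) - s + 1))) := by
        rw [Finset.mul_sum]
    _ ≤ ∑ s ∈ Finset.Ioc k l, (1 / ((s : ℝ) * √s) + 1 / (√(s : ℝ) * ((l : ℝ) - s + 1))) :=
        Finset.sum_le_sum hterm
    _ = (∑ s ∈ Finset.Ioc k l, 1 / ((s : ℝ) * √s)) +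
        ∑ s ∈ Finset.Ioc k l, 1 / (√(s : ℝ) * ((l : ℝ) - s + 1)) := Finset.sum_add_distrib
    _ ≤ tailS k + errE l := by
        refine add_le_add ?_ ?_
        · have h1 : Summable (fun j : ℕ => 1 / ((((j + k : ℕ) : ℝ) + 1) * √(((j + k : ℕ) : ℝ) + 1))) := by
            have := (summable_nat_add_iff k).2 summable_three_half
            exact this
          have h2 : ∑ s ∈ Finset.Ioc k l, 1 / ((s : ℝ) * √s) =
              ∑ j ∈ Finset.range (l - k), 1 / ((((j + k : ℕ) : ℝ) + 1) * √(((j + k : ℕ) : ℝ) + 1)) := by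
            refine Finset.sum_nbij' (fun s => s - k - 1) (fun j => j + k + 1) ?_ ?_ ?_ ?_ ?_
            · intro s hs
              rw [Finset.mem_Ioc] at hs
              rw [Finset.mem_range]
              omega
            · intro i hi
              rw [Finset.mem_range] at hi
              rw [Finset.mem_Ioc]
              omega
            · intro s hs
              rw [Finset.mem_Ioc] at hs
              omega
            · intro i hi
              omega
            · intro s hs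
              rw [Finset.mem_Ioc] at hs
              have h5 : ((s - k - 1 + k : ℕ) : ℝ) + 1 = s := by
                have : s - k - 1 + k + 1 = s := by omega
                exact_mod_cast this
              rw [h5]
          rw [h2]
          exact h1.sum_le_tsum _ (fun j _ => by positivity)
        · unfold errE
          refine Finset.sum_le_sum_of_subset_of_nonneg ?_ ?_
          · intro s hs
            rw [Finset.mem_Ioc] at hs ⊢
            omega
          · intro s hs _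
            rw [Finset.mem_Ioc] at hs
            have : (s : ℝ) ≤ l := by exact_mod_cast hs.2
            have h2 : (0 : ℝ) ≤ (l : ℝ) - s + 1 := by linarith
            positivity

lemma main_sum_bdd : ∃ C : ℝ, 0 ≤ C ∧ ∀ k l : ℕ, k ≤ l →
    (l : ℝ) * ∑ s ∈ Finset.Ioc k l, 1 / ((s : ℝ) * √s * ((l : ℝ) - s + 1)) ≤ C := by
  obtain ⟨B1, hB1⟩ := tailS_tendsto.bddAbove_range
  obtain ⟨B2, hB2⟩ := errE_tendsto.bddAbove_range
  refine ⟨B1 + B2, ?_, fun k l hkl => ?_⟩
  · have h1 := hB1 ⟨0, rfl⟩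
    have h2 := hB2 ⟨0, rfl⟩
    have h3 := tailS_nonneg 0
    have h4 := errE_nonneg 0
    linarith
  · exact (main_sum_le hkl).trans (add_le_add (hB1 ⟨k, rfl⟩) (hB2 ⟨l, rfl⟩))

end Pool.Agent.helper95.GMC
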